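import Pool.Agent.LE.StmtsQZ

/-! # XNB: norms of `Θ A Θ + ∑ Θ g Θ g Θ` -/

set_option autoImplicit false

open MeasureTheory ProbabilityTheory Function Filter

open scoped ENNReal BigOperators Topology NNReal ComplexOrder Matrix

noncomputable section

namespace Pool.Agent.LE.QZ.H15

open Pool.Agent.Anderson hiding box mem_box card_box
open Pool.Agent.Loc Pool.Agent.Mob Pool.Agent.Helper54.Bal
  Pool.Agent.Helper96.EXP Pool.Agent.BED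
open Pool.Agent.LE.MN Pool.Agent.LE.CL Pool.Agent.LE.IR Pool.Agent.LE.QD Pool.Agent.LE.QF

variable {X : Type} [Fintype X]

theorem n2_nn (f : X → ℂ) : 0 ≤ n2 f := Finset.sum_nonneg fun _ _ => by positivity

theorem n2_dot (f : X → ℂ) : (star f ⬝ᵥ f) = (n2 f : ℂ) := by
  simp only [dotProduct, n2, Pi.star_apply, Complex.ofReal_sum]
  refine Finset.sum_congr rfl fun x _ => ?_
  rw [Complex.star_def, ← Complex.normSq_eq_conj_mul_self, Complex.normSq_eq_norm_sq]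

theorem cs (f g : X → ℂ) : ‖star f ⬝ᵥ g‖ ^ 2 ≤ n2 f * n2 g := by
  have h1 : ‖star f ⬝ᵥ g‖ ≤ ∑ x, ‖f x‖ * ‖g x‖ := by
    refine (norm_sum_le _ _).trans (Finset.sum_le_sum fun x _ => ?_)
    rw [norm_mul, Pi.star_apply, norm_star]
  have h2 : (∑ x, ‖f x‖ * ‖g x‖) ^ 2 ≤ (∑ x, ‖f x‖ ^ 2) * ∑ x, ‖g x‖ ^ 2 :=
    Finset.sum_mul_sq_le_sq_mul_sq _ _ _
  exact (pow_le_pow_left₀ (norm_nonneg _) h1 2).trans h2

/-- the square root form -/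
theorem cs' (f g : X → ℂ) : ‖star f ⬝ᵥ g‖ ≤ Real.sqrt (n2 f) * Real.sqrt (n2 g) := by
  rw [← Real.sqrt_mul (n2_nn f)]
  exact Real.le_sqrt_of_sq_le (cs f g)

/-- the norm of the adjoint -/
theorem n2_adj (Y : Matrix X X ℂ) (c : ℝ) (h : ∀ u, n2 (Y *ᵥ u) ≤ c ^ 2 * n2 u)
    (u : X → ℂ) : n2 (Yᴴ *ᵥ u) ≤ c ^ 2 * n2 u := by
  have h1 : (n2 (Yᴴ *ᵥ u) : ℂ) = star u ⬝ᵥ (Y *ᵥ (Yᴴ *ᵥ u)) := by
    rw [← n2_dot, Matrix.star_mulVec, Matrix.conjTranspose_conjTranspose,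
      ← Matrix.dotProduct_mulVec]
  have h2 := cs u (Y *ᵥ (Yᴴ *ᵥ u))
  rw [← h1, Complex.norm_real, Real.norm_eq_abs, sq_abs] at h2
  have h3 := h (Yᴴ *ᵥ u)
  have h4 := n2_nn u
  have h5 := n2_nn (Yᴴ *ᵥ u)
  by_contra h6
  push Not at h6
  have h7 : n2 (Yᴴ *ᵥ u) ^ 2 ≤ n2 u * (c ^ 2 * n2 (Yᴴ *ᵥ u)) :=
    h2.trans (mul_le_mul_of_nonneg_left h3 h4)
  have h8 : 0 < n2 (Yᴴ *ᵥ u) := lt_of_le_of_lt (by positivity) h6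
  nlinarith

theorem n2_add (f g : X → ℂ) : n2 (f + g) ≤ 2 * n2 f + 2 * n2 g := by
  unfold n2
  rw [Finset.mul_sum, Finset.mul_sum, ← Finset.sum_add_distrib]
  refine Finset.sum_le_sum fun x _ => ?_
  have h := norm_add_le (f x) (g x)
  have h1 := norm_nonneg (f x + g x)
  have h2 := norm_nonneg (f x)
  have h3 := norm_nonneg (g x)
  have h4 : ‖f x + g x‖ ^ 2 ≤ (‖f x‖ + ‖g x‖) ^ 2 := pow_le_pow_left₀ h1 h 2
  change ‖f x + g x‖ ^ 2 ≤ _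
  nlinarith [sq_nonneg (‖f x‖ - ‖g x‖)]

/-- moving a matrix to the left side -/
theorem dot_move (w v : X → ℂ) (B : Matrix X X ℂ) : star w ⬝ᵥ (B *ᵥ v) = star (Bᴴ *ᵥ w) ⬝ᵥ v := by
  rw [Matrix.star_mulVec, Matrix.conjTranspose_conjTranspose, ← Matrix.dotProduct_mulVec]

/-- a sum of pairings -/
theorem sum_cs {ι : Type} [Fintype ι] (f g : ι → X → ℂ) (a b : ℝ)
    (hf : ∑ c, n2 (f c) ≤ a) (hg : ∑ c, n2 (g c) ≤ b) :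
    ‖∑ c, star (f c) ⬝ᵥ g c‖ ≤ Real.sqrt a * Real.sqrt b := by
  calc ‖∑ c, star (f c) ⬝ᵥ g c‖ ≤ ∑ c, ‖star (f c) ⬝ᵥ g c‖ := norm_sum_le _ _
    _ ≤ ∑ c, Real.sqrt (n2 (f c)) * Real.sqrt (n2 (g c)) :=
        Finset.sum_le_sum fun c _ => cs' _ _
    _ ≤ Real.sqrt (∑ c, Real.sqrt (n2 (f c)) ^ 2) * Real.sqrt (∑ c, Real.sqrt (n2 (g c)) ^ 2) :=
        Real.sum_mul_le_sqrt_mul_sqrt _ _ _
    _ = Real.sqrt (∑ c, n2 (f c)) * Real.sqrt (∑ c, n2 (g c)) := by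
        simp only [Real.sq_sqrt (n2_nn _)]
    _ ≤ Real.sqrt a * Real.sqrt b :=
        mul_le_mul (Real.sqrt_le_sqrt hf) (Real.sqrt_le_sqrt hg) (Real.sqrt_nonneg _)
          (Real.sqrt_nonneg _)

theorem xnb : XnbStmt := by
  intro X ι _ _ _ Θ A g ε ν hε hν hΘ hA hg hg'
  have h1 : ∀ u : X → ℂ, n2 (Θ *ᵥ u) ≤ 4 * n2 u := by
    intro u
    have e : Θ *ᵥ u = (Θ - 1) *ᵥ u + u := by
      rw [Matrix.sub_mulVec, Matrix.one_mulVec, sub_add_cancel]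
    rw [e]
    have := n2_add ((Θ - 1) *ᵥ u) u
    have := hΘ u
    linarith
  have h2 : ∀ u : X → ℂ, n2 (Θᴴ *ᵥ u) ≤ 4 * n2 u := by
    intro u
    have := n2_adj Θ 2 (fun u => by have := h1 u; norm_num; linarith) u
    norm_num at this
    linarith
  have h3 : ∀ u : X → ℂ, ∑ c, n2 ((Θ * g c * Θ) *ᵥ u) ≤ 16 * ν * n2 u := by
    intro u
    calc ∑ c, n2 ((Θ * g c * Θ) *ᵥ u) = ∑ c, n2 (Θ *ᵥ (g c *ᵥ (Θ *ᵥ u))) := by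
          refine Finset.sum_congr rfl fun c _ => ?_
          rw [Matrix.mulVec_mulVec, Matrix.mulVec_mulVec, mul_assoc]
      _ ≤ ∑ c, 4 * n2 (g c *ᵥ (Θ *ᵥ u)) := Finset.sum_le_sum fun c _ => h1 _
      _ = 4 * ∑ c, n2 (g c *ᵥ (Θ *ᵥ u)) := by rw [Finset.mul_sum]
      _ ≤ 4 * (ν * n2 (Θ *ᵥ u)) := mul_le_mul_of_nonneg_left (hg _) (by norm_num)
      _ ≤ 4 * (ν * (4 * n2 u)) := mul_le_mul_of_nonneg_left
          (mul_le_mul_of_nonneg_left (h1 u) hν) (by norm_num)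
      _ = 16 * ν * n2 u := by ring
  have h4 : ∀ u : X → ℂ, ∑ c, n2 ((Θ * g c * Θ)ᴴ *ᵥ u) ≤ 16 * ν * n2 u := by
    intro u
    calc ∑ c, n2 ((Θ * g c * Θ)ᴴ *ᵥ u) = ∑ c, n2 (Θᴴ *ᵥ ((g c)ᴴ *ᵥ (Θᴴ *ᵥ u))) := by
          refine Finset.sum_congr rfl fun c _ => ?_
          rw [Matrix.mulVec_mulVec, Matrix.mulVec_mulVec, Matrix.conjTranspose_mul,
            Matrix.conjTranspose_mul, mul_assoc]
      _ ≤ ∑ c, 4 * n2 ((g c)ᴴ *ᵥ (Θᴴ *ᵥ u)) := Finset.sum_le_sum fun c _ => h2 _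
      _ = 4 * ∑ c, n2 ((g c)ᴴ *ᵥ (Θᴴ *ᵥ u)) := by rw [Finset.mul_sum]
      _ ≤ 4 * (ν * n2 (Θᴴ *ᵥ u)) := mul_le_mul_of_nonneg_left (hg' _) (by norm_num)
      _ ≤ 4 * (ν * (4 * n2 u)) := mul_le_mul_of_nonneg_left
          (mul_le_mul_of_nonneg_left (h2 u) hν) (by norm_num)
      _ = 16 * ν * n2 u := by ring
  refine ⟨fun u => ⟨h1 u, h2 u⟩, ?_, h3, h4⟩
  intro u
  set w : X → ℂ := (Θ * A * Θ + ∑ c, Θ * g c * Θ * g c * Θ) *ᵥ u with hw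
  have e1 : w = (Θ * A * Θ) *ᵥ u + ∑ c, (Θ * g c * Θ * g c * Θ) *ᵥ u := by
    rw [hw, Matrix.add_mulVec, Matrix.sum_mulVec]
  have e2 : star w ⬝ᵥ w = star w ⬝ᵥ ((Θ * A * Θ) *ᵥ u) +
      ∑ c, star ((g c)ᴴ *ᵥ (Θᴴ *ᵥ w)) ⬝ᵥ ((Θ * g c * Θ) *ᵥ u) := by
    have e0 : star w ⬝ᵥ w = star w ⬝ᵥ ((Θ * A * Θ) *ᵥ u +
        ∑ c, (Θ * g c * Θ * g c * Θ) *ᵥ u) := by rw [← e1]
    rw [e0, dotProduct_add, dotProduct_sum]
    congr 1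
    refine Finset.sum_congr rfl fun c _ => ?_
    rw [← dot_move, ← dot_move, Matrix.mulVec_mulVec, Matrix.mulVec_mulVec]
    simp only [mul_assoc]
  have b1 : ‖star w ⬝ᵥ ((Θ * A * Θ) *ᵥ u)‖ ≤ Real.sqrt (n2 w) * (4 * ε * Real.sqrt (n2 u)) := by
    refine (cs' _ _).trans (mul_le_mul_of_nonneg_left ?_ (Real.sqrt_nonneg _))
    have h5 : n2 ((Θ * A * Θ) *ᵥ u) ≤ (4 * ε) ^ 2 * n2 u := by
      rw [mul_assoc, ← Matrix.mulVec_mulVec, ← Matrix.mulVec_mulVec]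
      calc n2 (Θ *ᵥ (A *ᵥ (Θ *ᵥ u))) ≤ 4 * n2 (A *ᵥ (Θ *ᵥ u)) := h1 _
        _ ≤ 4 * (ε ^ 2 * n2 (Θ *ᵥ u)) := mul_le_mul_of_nonneg_left (hA _) (by norm_num)
        _ ≤ 4 * (ε ^ 2 * (4 * n2 u)) := mul_le_mul_of_nonneg_left
          (mul_le_mul_of_nonneg_left (h1 u) (sq_nonneg _)) (by norm_num)
        _ = (4 * ε) ^ 2 * n2 u := by ring
    calc Real.sqrt (n2 ((Θ * A * Θ) *ᵥ u)) ≤ Real.sqrt ((4 * ε) ^ 2 * n2 u) :=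
          Real.sqrt_le_sqrt h5
      _ = 4 * ε * Real.sqrt (n2 u) := by
          rw [Real.sqrt_mul (sq_nonneg _), Real.sqrt_sq (by positivity)]
  have b2 : ‖∑ c, star ((g c)ᴴ *ᵥ (Θᴴ *ᵥ w)) ⬝ᵥ ((Θ * g c * Θ) *ᵥ u)‖ ≤
      Real.sqrt (n2 w) * (8 * ν * Real.sqrt (n2 u)) := by
    have h5 : ∑ c, n2 ((g c)ᴴ *ᵥ (Θᴴ *ᵥ w)) ≤ 4 * ν * n2 w := by
      calc ∑ c, n2 ((g c)ᴴ *ᵥ (Θᴴ *ᵥ w)) ≤ ν * n2 (Θᴴ *ᵥ w) := hg' _
        _ ≤ ν * (4 * n2 w) := mul_le_mul_of_nonneg_left (h2 w) hν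
        _ = 4 * ν * n2 w := by ring
    refine (sum_cs _ _ _ _ h5 (h3 u)).trans (le_of_eq ?_)
    have hw0 := n2_nn w
    have hu0 := n2_nn u
    rw [← Real.sqrt_mul (by positivity)]
    have e3 : 4 * ν * n2 w * (16 * ν * n2 u) = (8 * ν) ^ 2 * (n2 w * n2 u) := by ring
    rw [e3, Real.sqrt_mul (sq_nonneg _), Real.sqrt_sq (by positivity), Real.sqrt_mul hw0]
    ring
  have b3 : n2 w ≤ Real.sqrt (n2 w) * ((4 * ε + 8 * ν) * Real.sqrt (n2 u)) := by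
    have h5 : n2 w = ‖star w ⬝ᵥ w‖ := by
      rw [n2_dot, Complex.norm_real, Real.norm_of_nonneg (n2_nn w)]
    calc n2 w = ‖star w ⬝ᵥ w‖ := h5
      _ ≤ _ := by rw [e2]; exact norm_add_le _ _
      _ ≤ Real.sqrt (n2 w) * (4 * ε * Real.sqrt (n2 u)) +
        Real.sqrt (n2 w) * (8 * ν * Real.sqrt (n2 u)) := add_le_add b1 b2
      _ = _ := by ring
  have hw0 := n2_nn w
  have hu0 := n2_nn u
  have s1 := Real.sq_sqrt hw0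
  have s2 := Real.sq_sqrt hu0
  have s3 := Real.sqrt_nonneg (n2 w)
  have s4 := Real.sqrt_nonneg (n2 u)
  rcases eq_or_lt_of_le s3 with h | h
  · have h0 : n2 w = 0 := by rw [← s1, ← h]; norm_num
    rw [h0]
    exact mul_nonneg (sq_nonneg _) hu0
  · have h6 : Real.sqrt (n2 w) ≤ (4 * ε + 8 * ν) * Real.sqrt (n2 u) := by
      have h7 : Real.sqrt (n2 w) * Real.sqrt (n2 w) ≤
          Real.sqrt (n2 w) * ((4 * ε + 8 * ν) * Real.sqrt (n2 u)) := by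
        rw [← sq, s1]; exact b3
      exact le_of_mul_le_mul_left h7 h
    calc n2 w = Real.sqrt (n2 w) ^ 2 := s1.symm
      _ ≤ ((4 * ε + 8 * ν) * Real.sqrt (n2 u)) ^ 2 := pow_le_pow_left₀ s3 h6 2
      _ = (4 * ε + 8 * ν) ^ 2 * n2 u := by rw [mul_pow, s2]

end Pool.Agent.LE.QZ.H15
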